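import Pool.Agent.N996.FP.DefsT
import Pool.Agent.Y121.AHS.Gen0

/-!
# Absolutely Hodge classes and absolutely Hodge correspondences: definitions
-/

open CategoryTheory AlgebraicGeometry

universe u

namespace Pool.Agent.U228.AH

open Pool.Agent.H914 Pool.Agent.H914.VarClass Pool.Agent.H914.VarClass.Obj
  Pool.Agent.H914.WeilCohomology
open Pool.Agent.Y121.AHS
open Pool.Agent.Y133.Half (pw)

variable {k : Type u} [Field k] {𝒱 : VarClass k} {ops : CycleOps 𝒱}

/-- All Hodge classes on `X` are absolutely Hodge. -/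
def HodgeIsAbs {T : HodgeTheory ops} (D : Conjugates T) (X : 𝒱.Obj) : Prop :=
  ∀ (j : ℕ) (c : T.W.H X), IsHodge T X j c → IsAbsHodge D X j c

/-- The correspondence `H(X) → H(Y)`, `x ↦ pr₂_* (z · pr₁^* x)`, given by the class `z` on
`X × Y`. -/
noncomputable def actC (W : WeilCohomology.{u, 0} ops) {X Y : 𝒱.Obj} (z : W.H (X.prod Y))
    (x : W.H X) : W.H Y := transfer (W.map (fst X Y)) (W.push (snd X Y)) z x

/-- The cohomology of `Y` comes from powers of `X` by absolutely Hodge correspondences: the identity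
of `H(Y)` is a finite sum of compositions `H(Y) → H(X ^ (m + 1)) → H(Y)` of correspondences given by
absolutely Hodge classes. (It means that the motive of `Y` for absolute Hodge cycles is a direct
summand of a sum of Tate twists of motives of powers of `X`.) -/
def FromPowersAbs {T : HodgeTheory ops} (D : Conjugates T) (X Y : 𝒱.Obj) : Prop :=
  ∃ (r : ℕ) (m a b : Fin r → ℕ) (u : ∀ i, T.W.H (Y.prod (pw X (m i))))
    (v : ∀ i, T.W.H ((pw X (m i)).prod Y)),
    (∀ i, IsAbsHodge D (Y.prod (pw X (m i))) (a i) (u i) ∧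
      IsAbsHodge D ((pw X (m i)).prod Y) (b i) (v i)) ∧
    ∀ y : T.W.H Y, ∑ i, actC T.W (v i) (actC T.W (u i) y) = y

end Pool.Agent.U228.AH
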