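import Pool.Agent.N996.FP.DefsT

/-!
# Hodge classes preserved by one comparison isomorphism: definitions

In the intended use `T` is `X ↦ H(X, ℚ)` for smooth projective complex varieties, `T'` is
`X ↦ H(X^σ, ℚ)` for an automorphism `σ` of `ℂ`, and `C` is the comparison isomorphism given by de
Rham cohomology (`L = ℂ`) or by `ℓ`-adic cohomology for one prime number `ℓ` (`L = ℚ_ℓ`).
-/

open CategoryTheory AlgebraicGeometry

universe u

namespace Pool.Agent.U228.AH

open Pool.Agent.H914 Pool.Agent.H914.VarClass Pool.Agent.H914.VarClass.Obj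
  Pool.Agent.H914.WeilCohomology
open Pool.Agent.Y121.AHS
open Pool.Agent.Y133.Half (dimOf)

variable {k : Type u} [Field k] {𝒱 : VarClass k} {ops : CycleOps 𝒱}
variable {T T' : HodgeTheory ops} {L : Type} [Field L] [Algebra T.W.K L] [Algebra T'.W.K L]

/-- The class `c` is a Hodge class of degree `2 j` whose image under the comparison isomorphism is a
Hodge class of the theory `T'`. -/
def IsPreserved (C : Comparison T.W T'.W L) (X : 𝒱.Obj) (j : ℕ) (c : T.W.H X) : Prop :=
  IsHodge T X j c ∧ ∃ c' : T'.W.H X, IsHodge T' X j c' ∧ C.Maps j c (emL T'.W L c')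

/-- The image of every Hodge class on `X` under the comparison isomorphism is a Hodge class. -/
def HodgePreserved (C : Comparison T.W T'.W L) (X : 𝒱.Obj) : Prop :=
  ∀ (j : ℕ) (c : T.W.H X), IsHodge T X j c → IsPreserved C X j c

/-- The dimension of the space spanned by the Hodge classes on `X` whose images under the comparison
isomorphism are Hodge classes. -/
noncomputable def presDim (C : Comparison T.W T'.W L) (X : 𝒱.Obj) : ℕ :=
  dimOf T.W {c : T.W.H X | ∃ j, IsPreserved C X j c}

end Pool.Agent.U228.AH
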