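import Pool.Agent.N996.FP.FinT
import Pool.Agent.U228.AH.Defs

/-!
# One power decides whether the Hodge classes on all powers are absolutely Hodge
-/

open CategoryTheory AlgebraicGeometry

universe u

namespace Pool.Agent.U228.AH

open Module
open Pool.Agent.H914 Pool.Agent.H914.VarClass Pool.Agent.H914.VarClass.Obj
  Pool.Agent.H914.WeilCohomology
open Pool.Agent.Y121.AHS
open Pool.Agent.Y133.Half (pw ClassPred Sys)
open Pool.Agent.Y121.AH (hodgePred absPred)
open Pool.Agent.N996.FP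

variable {k : Type u} [Field k] {𝒱 : VarClass k} {ops : CycleOps 𝒱} {T : HodgeTheory ops}
  {X Y : 𝒱.Obj}

lemma hodgeIsAbs_iff {D : Conjugates T} : HodgeIsAbs D X ↔
    (hodgePred (toH T)).sp X ≤ (absPred (toD D)).sp X := by
  constructor
  · intro h c hc
    refine ClassPred.sp_ind (Q := hodgePred (toH T)) (q := fun c => c ∈ (absPred (toD D)).sp X)
      ?_ ?_ ?_ hc
    · intro j x hx; exact ClassPred.sp_of (Q := absPred (toD D)) (h j x hx)
    · exact Submodule.zero_mem _
    · intro a b ha hb; exact Submodule.add_mem _ ha hb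
  · intro h j c hc
    have h1 := h (ClassPred.sp_of (Q := hodgePred (toH T)) hc)
    have h2 := ClassPred.sp_proj (Q := absPred (toD D)) h1 j
    have h3 : Pool.Agent.H914.proj (T.W.isInternal X) (2 * j) c = c :=
      proj_same _ hc.1
    have h4 : IsAbsHodge D X j (Pool.Agent.H914.proj (T.W.isInternal X) (2 * j) c) := h2
    rw [h3] at h4
    exact h4

theorem abs_pw {D : Conjugates T} {ψ : RForm T.W X} (hψ : IsPolarisation T X ψ) {N : ℕ}
    (hN : AdmT T X ψ (transBetti T X) N) (h : HodgeIsAbs D (pw X (N - 1))) (n : ℕ) :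
    HodgeIsAbs D (pw X n) := by
  have h1 := admT_c hψ hN (((absPred (toD D)).sys).csys X)
    (fun n => Pool.Agent.Y121.AH.abs_le_hodge (toD D) (pw X n)) (hodgeIsAbs_iff.1 h) n
  exact hodgeIsAbs_iff.2 h1

lemma actC_mem {Q : ClassPred T.W} {z : T.W.H (X.prod Y)} {x : T.W.H X} (hz : z ∈ Q.sp (X.prod Y))
    (hx : x ∈ Q.sp X) : actC T.W z x ∈ Q.sp Y :=
  Q.sys.push _ (Q.sys.mul hz (Q.sys.map _ hx))

theorem abs_from {D : Conjugates T} (hX : ∀ n, HodgeIsAbs D (pw X n)) (hY : FromPowersAbs D X Y) :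
    HodgeIsAbs D Y := by
  obtain ⟨r, m, a, b, u, v, huv, hid⟩ := hY
  rw [hodgeIsAbs_iff]
  intro c hc
  rw [← hid c]
  refine Submodule.sum_mem _ fun i _ => ?_
  have hu0 : u i ∈ (absPred (toD D)).sp (Y.prod (pw X (m i))) :=
    ClassPred.sp_of (Q := absPred (toD D)) (huv i).1
  have hv0 : v i ∈ (absPred (toD D)).sp ((pw X (m i)).prod Y) :=
    ClassPred.sp_of (Q := absPred (toD D)) (huv i).2
  have hu1 : u i ∈ (hodgePred (toH T)).sp (Y.prod (pw X (m i))) :=
    Pool.Agent.Y121.AH.abs_le_hodge (toD D) _ hu0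
  have hu : actC T.W (u i) c ∈ (hodgePred (toH T)).sp (pw X (m i)) := actC_mem hu1 hc
  have h2 := hodgeIsAbs_iff.1 (hX (m i)) hu
  exact actC_mem hv0 h2

end Pool.Agent.U228.AH
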