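import Pool.Agent.U228.AH.Main
import Pool.Agent.U228.AH.Defs2
import Pool.Agent.Y121.AHS.Law

/-!
# One comparison isomorphism
-/

open CategoryTheory AlgebraicGeometry

universe u

namespace Pool.Agent.U228.AH

open Module
open Pool.Agent.H914 Pool.Agent.H914.VarClass Pool.Agent.H914.VarClass.Obj
  Pool.Agent.H914.WeilCohomology
open Pool.Agent.Y121.AHS
open Pool.Agent.Y133.Half (pw ClassPred Sys dimOf AtMostHalf)
open Pool.Agent.N996.FP

variable {k : Type u} [Field k] {𝒱 : VarClass k} {ops : CycleOps 𝒱} {T T' : HodgeTheory ops}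
  {L : Type} [Field L] [Algebra T.W.K L] [Algebra T'.W.K L] {X Y : 𝒱.Obj}

/-- One comparison isomorphism as a family. -/
def single (hL : Nonempty (L →+* ℂ)) (C : Comparison T.W T'.W L) : Conjugates T where
  ι := PUnit
  T' _ := T'
  J := PUnit
  t _ := ⟨⟩
  L _ := L
  emb _ := hL
  cmp _ := C

/-- One comparison isomorphism as a family of families. -/
def singleF (hL : Nonempty (L →+* ℂ)) (C : Comparison T.W T'.W L) : Full.Conjugates T where
  ι := PUnit
  T' _ := T'
  J _ := PUnit
  L _ _ := L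
  emb _ _ := hL
  cmp _ _ := C

lemma single_iff {hL : Nonempty (L →+* ℂ)} {C : Comparison T.W T'.W L} {j : ℕ} {c : T.W.H X} :
    IsAbsHodge (single hL C) X j c ↔ IsPreserved C X j c := by
  constructor
  · rintro ⟨h1, c', h2, h3⟩
    exact ⟨h1, c' ⟨⟩, h2 ⟨⟩, h3 ⟨⟩⟩
  · rintro ⟨h1, c', h2, h3⟩
    exact ⟨h1, fun _ => c', fun _ => h2, fun _ => h3⟩

lemma singleF_iff {hL : Nonempty (L →+* ℂ)} {C : Comparison T.W T'.W L} {j : ℕ} {c : T.W.H X} :
    Full.IsAbsHodge (singleF hL C) X j c ↔ IsPreserved C X j c := by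
  constructor
  · rintro ⟨h1, h2⟩
    obtain ⟨c', h3, h4⟩ := h2 ⟨⟩
    exact ⟨h1, c', h3, h4 ⟨⟩⟩
  · rintro ⟨h1, c', h2, h3⟩
    exact ⟨h1, fun _ => ⟨c', h2, fun _ => h3⟩⟩

lemma hodgePreserved_iff {hL : Nonempty (L →+* ℂ)} {C : Comparison T.W T'.W L} :
    HodgeIsAbs (single hL C) X ↔ HodgePreserved C X :=
  forall_congr' fun _ => forall_congr' fun _ => imp_congr_right fun _ => single_iff

theorem pres_pw (hL : Nonempty (L →+* ℂ)) {C : Comparison T.W T'.W L} {ψ : RForm T.W X}
    (hψ : IsPolarisation T X ψ) {N : ℕ} (hN : AdmT T X ψ (transBetti T X) N)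
    (h : HodgePreserved C (pw X (N - 1))) (n : ℕ) : HodgePreserved C (pw X n) :=
  (hodgePreserved_iff (hL := hL)).1 (abs_pw hψ hN (hodgePreserved_iff.2 h) n)

/-- **At most one half.** -/
theorem half (hL : Nonempty (L →+* ℂ)) {C : Comparison T.W T'.W L} {n : ℕ}
    (h : ¬ HodgePreserved C (pw X n)) :
    AtMostHalf (fun n => presDim C (pw X n)) fun n => hodgeDim T (pw X n) := by
  have hnt : Nontrivial (T.W.H X) := by
    by_contra hcon
    rw [not_nontrivial_iff_subsingleton] at hcon
    apply h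
    intro j c hc
    have hs : ∀ n, Subsingleton (T.W.H (pw X n)) := by
      intro n
      have h1 : (1 : T.W.H (pw X n)) = 0 := by
        have h2 := map_one (T.W.map (Pool.Agent.N996.FP.pr X n 0))
        have h3 : (1 : T.W.H X) = 0 := Subsingleton.elim _ _
        rw [h3, map_zero] at h2
        exact h2.symm
      exact ⟨fun a b => by rw [← one_mul a, ← one_mul b, h1, zero_mul, zero_mul]⟩
    have := hs n
    obtain rfl : c = 0 := Subsingleton.elim _ _
    have h0 : IsAbsHodge (single hL C) (pw X n) j 0 :=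
      (Pool.Agent.Y121.AH.absPred (toD (single hL C))).zero
    exact single_iff.1 h0
  obtain ⟨N, -, -, h1, h2, -⟩ := Full.index_law T (singleF hL C) X
  have h3 : N ≠ 1 := by
    intro hN
    refine h fun j c hc => ?_
    exact singleF_iff.1 (h1.1 hN n j c hc)
  have h4 := h2 h3
  have h5 : ∀ n, Full.absDim (singleF hL C) (pw X n) = presDim C (pw X n) := by
    intro n
    have h6 : {c : T.W.H (pw X n) | ∃ j, Full.IsAbsHodge (singleF hL C) (pw X n) j c} =
        {c | ∃ j, IsPreserved C (pw X n) j c} := by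
      ext c
      exact exists_congr fun j => singleF_iff
    exact congrArg (dimOf T.W) h6
  simpa only [h5] using h4

end Pool.Agent.U228.AH
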